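import Pool.Agent.H500.ME.Stm3
import Pool.Agent.H894.TH.TFin
import Pool.Agent.H500.KumDens

set_option autoImplicit false
set_option linter.unusedSectionVars false

/-!
# Project ME (helper500), part E5 (helper696): absolute values of the eigenvalues
-/

namespace Pool.Agent.H696.ME.EIG

open NumberField IsDedekindDomain Filter Topology Polynomial
open Pool.Agent.W401.Cheb (GK IsFrob IsInert dens)
open Pool.Agent.H500.HC (InRay QBar ZBar jz)
open Pool.Agent.H500.SV (Above Fld)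
open Pool.Agent.H500.ED
open Pool.Agent.H500.ME (IsAC at1 HasWt AC IsCyc)
open Pool.Agent.Q92.AR (Dv Ray prin)
open Pool.Agent.H894.TH.TFin (above_nat above_unique)

/-- the eigenvalues of a matrix with a diagonal power -/
theorem root_pow {C : Type} [Field C] {n d : ℕ} (A : Matrix (Fin n) (Fin n) C) (c : Fin n → C)
    (hA : A ^ d = Matrix.diagonal c) {y : C} (hy : y ∈ A.charpoly.roots) :
    ∃ i, y ^ d = c i := by
  have h1 : y ∈ spectrum C A :=
    Matrix.mem_spectrum_iff_isRoot_charpoly.2 (isRoot_of_mem_roots hy)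
  have h2 := spectrum.pow_mem_pow A d h1
  rw [hA, spectrum_diagonal] at h2
  obtain ⟨i, hi⟩ := h2
  exact ⟨i, hi.symm⟩

/-- roots of positive real numbers -/
theorem real_root {r x : ℝ} {d : ℕ} (m : ℤ) (hr : 0 ≤ r) (hx : 0 < x) (hd : 0 < d)
    (h : (r ^ d) ^ 2 = (x ^ d) ^ m) : r = x ^ ((m : ℝ) / 2) := by
  have h1 : r ^ (d * 2) = (x ^ ((m : ℝ) / 2)) ^ (d * 2) := by
    rw [pow_mul, h, ← zpow_natCast x d, ← zpow_mul, ← Real.rpow_natCast, ← Real.rpow_mul hx.le,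
      ← Real.rpow_intCast]
    congr 1
    push_cast
    ring
  exact (pow_left_inj₀ hr (Real.rpow_nonneg hx.le _) (by omega)).1 h1

/-- the places below finitely many places -/
theorem fin_below {K L : Type} [Field K] [NumberField K] [Field L] [NumberField L] [Algebra K L]
    {S : Set (HeightOneSpectrum (𝓞 L))} (hS : S.Finite) :
    {v : HeightOneSpectrum (𝓞 K) | ∃ w ∈ S, Above w v}.Finite := by
  have h1 : {v : HeightOneSpectrum (𝓞 K) | ∃ w ∈ S, Above w v} =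
      ⋃ w ∈ S, {v : HeightOneSpectrum (𝓞 K) | Above w v} := by
    ext v
    simp only [Set.mem_setOf_eq, Set.mem_iUnion, exists_prop]
  rw [h1]
  exact hS.biUnion fun w _ => Set.Subsingleton.finite fun v hv v' hv' => above_unique hv hv'

theorem main : Pool.Agent.H500.ED.S_FXC → Pool.Agent.H500.ME.S_CYC →
    Pool.Agent.H500.ME.S_EIG := by
  intro hFXC hCYC K _ _ U L _ _ _ ι e hn hU hFX ℓ hℓ κ n m ρ Φ hAC hρ ιc
  classical
  choose M t φ hM hwt using hAC
  obtain ⟨-, -, -, -, -, -, hlast⟩ := hFXC K U L ι e hU hFX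
  have hfin : Finite (GK K ⧸ U) := Subgroup.quotient_finite_of_isOpen _ hU
  have hFI : U.FiniteIndex := Subgroup.finiteIndex_of_finite_quotient
  have hd : 0 < U.index := Nat.pos_of_ne_zero hFI.index_ne_zero
  obtain ⟨⟨χ, hχ⟩, hcyc⟩ := hCYC K ℓ κ
  obtain ⟨-, -, hres⟩ := hcyc χ hχ
  have hχL : IsCyc ℓ (χ.comp ι) := hres U L ι e hU hFX
  obtain ⟨N, hN⟩ : ∃ N : ℕ, N = ℓ * ∏ i, M i := ⟨_, rfl⟩
  have hN0 : N ≠ 0 := by
    rw [hN]
    exact mul_ne_zero hℓ.out.ne_zero (Finset.prod_ne_zero_iff.2 fun i _ => (hM i).pos.ne')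
  have hfin2 : {v : HeightOneSpectrum (𝓞 K) | (N : 𝓞 K) ∈ v.asIdeal}.Finite :=
    Pool.Agent.H500.Kum.fin_mem (E := K) (x := (N : 𝓞 K)) (by exact_mod_cast hN0)
  have hbad : {w : HeightOneSpectrum (𝓞 L) | ¬ ∀ i, ‖(ιc.comp κ) (at1 (φ i) w)‖ ^ 2 =
      (Ideal.absNorm w.asIdeal : ℝ) ^ m}.Finite := by
    have h1 : ∀ᶠ w : HeightOneSpectrum (𝓞 L) in cofinite, ∀ i,
        ‖(ιc.comp κ) (at1 (φ i) w)‖ ^ 2 = (Ideal.absNorm w.asIdeal : ℝ) ^ m :=
      eventually_all.2 fun i => hwt i (ιc.comp κ)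
    exact h1
  have hfin3 := fin_below (K := K) hbad
  filter_upwards [hfin2.compl_mem_cofinite, hfin3.compl_mem_cofinite] with v hv hvb s hs y hy
  have hv' : (N : 𝓞 K) ∉ v.asIdeal := hv
  obtain ⟨u, s', τ, a, hab, hs', hτ, ha, heq⟩ := hlast v s hs 1 U.index hd (by
    rw [inv_one, one_mul, mul_one]
    exact U.pow_index_mem s)
  rw [inv_one, one_mul, mul_one] at heq
  have hgood : ∀ i, ‖(ιc.comp κ) (at1 (φ i) u)‖ ^ 2 = (Ideal.absNorm u.asIdeal : ℝ) ^ m := by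
    by_contra hc
    exact hvb ⟨u, hc, hab⟩
  have hMu : ∀ i, (M i : 𝓞 L) ∉ u.asIdeal := by
    intro i hi
    apply hv'
    rw [above_nat hab]
    obtain ⟨b, hb⟩ : M i ∣ N := hN ▸ (Finset.dvd_prod_of_mem M (Finset.mem_univ i)).mul_left ℓ
    rw [hb, Nat.cast_mul]
    exact u.asIdeal.mul_mem_right _ hi
  have hlu : (ℓ : 𝓞 L) ∉ u.asIdeal := by
    intro hi
    apply hv'
    rw [above_nat hab, hN, Nat.cast_mul]
    exact u.asIdeal.mul_mem_right _ hi
  have hlv : (ℓ : 𝓞 K) ∉ v.asIdeal := fun h => hlu ((above_nat hab ℓ).1 h)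
  -- the norms
  have hnorm : Ideal.absNorm u.asIdeal ^ a = Ideal.absNorm v.asIdeal ^ U.index := by
    have h1 : χ s ^ U.index = (χ.comp ι s') ^ a := by
      rw [← map_pow, heq, ← MonoidHom.comp_apply, map_mul, map_pow, hχL.unr u hlu τ hτ, mul_one]
    have h2 := congrArg (fun z : (PadicAlgCl ℓ)ˣ => (z : PadicAlgCl ℓ)) h1
    simp only [Units.val_pow_eq_pow_val] at h2
    rw [hχ.frob v hlv s hs, hχL.frob u hlu s' hs'] at h2
    exact_mod_cast h2.symm
  have hpow : (ρ s : Matrix (Fin n) (Fin n) (PadicAlgCl ℓ)) ^ U.index =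
      Matrix.diagonal fun i => κ (at1 (φ i) u) ^ a := by
    have h1 : (ρ s : Matrix (Fin n) (Fin n) (PadicAlgCl ℓ)) ^ U.index =
        (ρ (s ^ U.index) : Matrix (Fin n) (Fin n) (PadicAlgCl ℓ)) := by
      rw [map_pow]
      rfl
    rw [h1, heq, hρ]
    congr 1
    funext i
    rw [map_mul, map_pow, (hM i).inert u (hMu i) τ hτ, mul_one, Units.val_pow_eq_pow_val,
      (hM i).frob u (hMu i) s' hs']
  obtain ⟨i, hi⟩ := root_pow _ _ hpow hy
  have hNv : 0 < (Ideal.absNorm v.asIdeal : ℝ) := by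
    have h3 : Ideal.absNorm v.asIdeal ≠ 0 := by
      rw [Ne, Ideal.absNorm_eq_zero_iff]
      exact v.ne_bot
    exact_mod_cast Nat.pos_of_ne_zero h3
  refine real_root (d := U.index) m (norm_nonneg _) hNv hd ?_
  have h4 : ‖ιc y‖ ^ U.index = ‖(ιc.comp κ) (at1 (φ i) u)‖ ^ a := by
    rw [← norm_pow, ← map_pow, hi, map_pow, norm_pow, RingHom.comp_apply]
  have h5 : (Ideal.absNorm v.asIdeal : ℝ) ^ U.index = (Ideal.absNorm u.asIdeal : ℝ) ^ a := by
    exact_mod_cast hnorm.symm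
  rw [h4, h5, ← pow_mul, mul_comm a 2, pow_mul, hgood i, ← zpow_natCast, ← zpow_mul,
    ← zpow_natCast (Ideal.absNorm u.asIdeal : ℝ) a, ← zpow_mul, mul_comm]

end Pool.Agent.H696.ME.EIG
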